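import Pool.Agent.H200P.Stm3

/-! # Project PK: general points. -/

set_option autoImplicit false

namespace Pool.Agent.H200P

open Finset Pool.Agent.H200W Pool.Agent.H932R3

/-- The class `(d; w)` is packed, or above a packed class `(e; v)` without sections, `e ≥ d`. -/
def Packed {n : ℕ} (d : ℕ) (w : Fin n → ℕ) : Prop :=
  PackAt d w ∨ ∃ (e : ℕ) (v : Fin n → ℕ), d ≤ e ∧ (∀ i, v i ≤ w i) ∧ PackAt e v ∧
    (e + 2).choose 2 ≤ ∑ i, (v i + 1).choose 2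

/-- No sections in degree `e` for smaller multiplicities: none in lower degrees. -/
theorem exp_low2 {K : Type} [Field K] {n : ℕ} {v w : Fin n → ℕ} {P : Fin n → Fin 2 → K} {d e : ℕ}
    (h : d ≤ e) (hvw : ∀ i, v i ≤ w i) (h1 : ExpDim K v P e)
    (h2 : (e + 2).choose 2 ≤ ∑ i, (v i + 1).choose 2) : ExpDim K w P d := by
  have h2' : (e + 2).choose 2 ≤ ∑ i, (w i + 1).choose 2 :=
    h2.trans (Finset.sum_le_sum fun i _ => Nat.choose_le_choose 2 (Nat.add_le_add_right (hvw i) 1))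
  unfold ExpDim at h1 ⊢
  obtain ⟨I, hI⟩ : ∃ I : Fin n → Ideal (MvPolynomial (Fin 3) K), I = fun i => Ideal.span
            ({MvPolynomial.X 0 - MvPolynomial.C (P i 0) * MvPolynomial.X 2,
              MvPolynomial.X 1 - MvPolynomial.C (P i 1) * MvPolynomial.X 2} :
              Set (MvPolynomial (Fin 3) K)) := ⟨_, rfl⟩
  have hJ1 : (Submodule.restrictScalars K (⨅ i : Fin n, (Ideal.span
            ({MvPolynomial.X 0 - MvPolynomial.C (P i 0) * MvPolynomial.X 2,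
              MvPolynomial.X 1 - MvPolynomial.C (P i 1) * MvPolynomial.X 2} :
              Set (MvPolynomial (Fin 3) K))) ^ (v i))) =
      Submodule.restrictScalars K (⨅ i : Fin n, I i ^ (v i)) := by rw [hI]
  have hJ2 : (Submodule.restrictScalars K (⨅ i : Fin n, (Ideal.span
            ({MvPolynomial.X 0 - MvPolynomial.C (P i 0) * MvPolynomial.X 2,
              MvPolynomial.X 1 - MvPolynomial.C (P i 1) * MvPolynomial.X 2} :
              Set (MvPolynomial (Fin 3) K))) ^ (w i))) =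
      Submodule.restrictScalars K (⨅ i : Fin n, I i ^ (w i)) := by rw [hI]
  rw [hJ1] at h1
  rw [hJ2]
  have hfin : ∀ a, Module.Finite K ↥(MvPolynomial.homogeneousSubmodule (Fin 3) K a) := fun a =>
    Module.Finite.iff_fg.2 (MvPolynomial.homogeneousSubmodule_fg _ _ a)
  have hfin2 : Module.Finite K ↥(MvPolynomial.homogeneousSubmodule (Fin 3) K e ⊓
      Submodule.restrictScalars K (⨅ i : Fin n, I i ^ (v i))) :=
    haveI := hfin e
    Submodule.finiteDimensional_of_le (S₂ := MvPolynomial.homogeneousSubmodule (Fin 3) K e)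
      inf_le_left
  rw [Nat.sub_eq_zero_of_le h2] at h1
  have h4 : (d + 2).choose 2 - ∑ i, (w i + 1).choose 2 = 0 :=
    Nat.sub_eq_zero_of_le ((Nat.choose_le_choose 2 (by omega)).trans h2')
  rw [h4]
  have h5 : MvPolynomial.homogeneousSubmodule (Fin 3) K e ⊓
      Submodule.restrictScalars K (⨅ i : Fin n, I i ^ (v i)) = ⊥ := Submodule.finrank_eq_zero.1 h1
  have h6 : MvPolynomial.homogeneousSubmodule (Fin 3) K d ⊓
      Submodule.restrictScalars K (⨅ i : Fin n, I i ^ (w i)) = ⊥ := by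
    rw [Submodule.eq_bot_iff]
    rintro f ⟨hf1, hf2⟩
    have hf3 : f ∈ ⨅ i : Fin n, I i ^ (w i) := hf2
    have hf4 : f ∈ ⨅ i : Fin n, I i ^ (v i) := by
      rw [Ideal.mem_iInf] at hf3 ⊢
      exact fun i => Ideal.pow_le_pow_right (hvw i) (hf3 i)
    have h7 : MvPolynomial.X 2 ^ (e - d) * f ∈
        MvPolynomial.homogeneousSubmodule (Fin 3) K e ⊓
          Submodule.restrictScalars K (⨅ i : Fin n, I i ^ (v i)) := by
      refine ⟨?_, ?_⟩
      · have h8 : (MvPolynomial.X 2 ^ (e - d) * f).IsHomogeneous (1 * (e - d) + d) :=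
          ((MvPolynomial.isHomogeneous_X K (2 : Fin 3)).pow (e - d)).mul hf1
        rw [one_mul, Nat.sub_add_cancel h] at h8
        exact h8
      · exact Ideal.mul_mem_left _ _ hf4
    rw [h5, Submodule.mem_bot] at h7
    rcases mul_eq_zero.1 h7 with h8 | h8
    · exact absurd h8 (pow_ne_zero _ (MvPolynomial.X_ne_zero 2))
    · exact h8
  rw [h6, finrank_bot]

theorem packed_exp (hE : ∀ {n d : ℕ} {w : Fin n → ℕ}, PackAt d w → GenExp d w) {n d : ℕ}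
    {w : Fin n → ℕ} (h : Packed d w) : GenExp d w := by
  rcases h with h | ⟨e, v, h1, h2, h3, h4⟩
  · exact hE h
  · intro K _ _ P hP
    exact exp_low2 h1 h2 (hE h3 hP) h4

/-- The main theorem, with the exponent `2 / 3`. -/
theorem mainC23 (hM : MainC) (ε : ℝ) (hε : 0 < ε) : ∃ c : ℝ, 0 < c ∧
    ∀ {n d : ℕ} (w : Fin n → ℕ), (∀ i, (w i : ℝ) ≤ c * d) →
      (∑ i ∈ univ.filter (fun i => c * (d : ℝ) ^ (2 / 3 : ℝ) < (w i : ℝ)), (w i : ℝ) ^ 2 ≤
          (1 - ε) * (d : ℝ) ^ 2 ∨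
        ε * (d : ℝ) ^ 2 ≤
          ∑ i ∈ univ.filter (fun i => (w i : ℝ) ≤ c * (d : ℝ) ^ (2 / 3 : ℝ)), (w i : ℝ) ^ 2) →
      GenExp d w := by
  obtain ⟨c0, hc0, H⟩ := hM ε hε
  obtain ⟨a, ha⟩ : ∃ a : ℝ, a = min 1 (c0 / 2) := ⟨_, rfl⟩
  have ha0 : 0 < a := by rw [ha]; exact lt_min one_pos (by linarith)
  have ha1 : a ≤ 1 := by rw [ha]; exact min_le_left _ _
  have hac : a ≤ c0 / 2 := by rw [ha]; exact min_le_right _ _
  refine ⟨c0 * a, mul_pos hc0 ha0, fun {n d} w hw h => ?_⟩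
  obtain ⟨q, hq⟩ : ∃ q : ℝ, q = (d : ℝ) ^ (2 / 3 : ℝ) := ⟨_, rfl⟩
  have hd0 : (0 : ℝ) ≤ d := Nat.cast_nonneg _
  have hq0 : 0 ≤ q := by rw [hq]; positivity
  have hq3 : q ^ 3 = (d : ℝ) ^ 2 := by
    rw [hq, ← Real.rpow_natCast, ← Real.rpow_mul hd0]
    norm_num
  have hqd : q ^ 2 ≤ (d : ℝ) ^ 2 := by
    rcases Nat.eq_zero_or_pos d with h0 | h0
    · rw [hq, h0]
      norm_num
    · have h1 : (1 : ℝ) ≤ d := by exact_mod_cast h0
      have h2 : q ≤ d := by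
        rw [hq]
        calc (d : ℝ) ^ (2 / 3 : ℝ) ≤ (d : ℝ) ^ (1 : ℝ) :=
              Real.rpow_le_rpow_of_exponent_le h1 (by norm_num)
          _ = d := Real.rpow_one _
      exact pow_le_pow_left₀ hq0 h2 2
  rw [← hq] at h
  have hfl : (⌊a * q⌋₊ : ℝ) ≤ a * q := Nat.floor_le (by positivity)
  refine @H n d (⌊a * q⌋₊ + 1) (a * q) w (by omega) (by positivity)
    (fun i => (hw i).trans ?_) ?_ ?_ ?_
  · apply mul_le_mul_of_nonneg_right _ hd0
    calc c0 * a ≤ c0 * 1 := mul_le_mul_of_nonneg_left ha1 hc0.le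
      _ = c0 := mul_one _
  · have h1 : (univ.filter fun i => (w i : ℝ) ≤ a * q).image w ⊆ range (⌊a * q⌋₊ + 1) := by
      intro x hx
      obtain ⟨i, hi, rfl⟩ := mem_image.1 hx
      rw [mem_range]
      exact Nat.lt_succ_of_le (Nat.le_floor (mem_filter.1 hi).2)
    have h2 := card_le_card h1
    rwa [card_range] at h2
  · push_cast
    have h1 : ((⌊a * q⌋₊ : ℝ) + 1) * (a * q) ^ 2 ≤ (a * q + 1) * (a * q) ^ 2 :=
      mul_le_mul_of_nonneg_right (by linarith) (by positivity)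
    have h2 : (a * q + 1) * (a * q) ^ 2 = a ^ 3 * q ^ 3 + a ^ 2 * q ^ 2 := by ring
    have h3 : a ^ 2 ≤ a := by
      calc a ^ 2 = a * a := by ring
        _ ≤ a * 1 := mul_le_mul_of_nonneg_left ha1 ha0.le
        _ = a := mul_one _
    have h4 : a ^ 3 ≤ a := by
      calc a ^ 3 = a ^ 2 * a := by ring
        _ ≤ a * 1 := mul_le_mul h3 ha1 ha0.le ha0.le
        _ = a := mul_one _
    have h5 : a ^ 3 * q ^ 3 ≤ a * (d : ℝ) ^ 2 := by
      rw [hq3]
      exact mul_le_mul_of_nonneg_right h4 (by positivity)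
    have h6 : a ^ 2 * q ^ 2 ≤ a * (d : ℝ) ^ 2 :=
      mul_le_mul h3 hqd (by positivity) ha0.le
    have h7 : a * (d : ℝ) ^ 2 ≤ c0 / 2 * (d : ℝ) ^ 2 :=
      mul_le_mul_of_nonneg_right hac (by positivity)
    have h8 : c0 / 2 * (d : ℝ) ^ 2 + c0 / 2 * (d : ℝ) ^ 2 = c0 * (d : ℝ) ^ 2 := by ring
    linarith
  · have e : c0 * a * q = c0 * (a * q) := by ring
    rw [e] at h
    exact h

/-- smaller thresholds give weaker conditions -/
theorem alt_mono {n : ℕ} {w : Fin n → ℕ} {a b t t' : ℝ} (h : t' ≤ t)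
    (h1 : ∑ i ∈ univ.filter (fun i => t' < (w i : ℝ)), (w i : ℝ) ^ 2 ≤ a ∨
      b ≤ ∑ i ∈ univ.filter (fun i => (w i : ℝ) ≤ t'), (w i : ℝ) ^ 2) :
    ∑ i ∈ univ.filter (fun i => t < (w i : ℝ)), (w i : ℝ) ^ 2 ≤ a ∨
      b ≤ ∑ i ∈ univ.filter (fun i => (w i : ℝ) ≤ t), (w i : ℝ) ^ 2 := by
  rcases h1 with h1 | h1
  · refine Or.inl (le_trans (sum_le_sum_of_subset_of_nonneg ?_ fun i _ _ => by positivity) h1)
    intro i hi
    rw [mem_filter] at hi ⊢
    exact ⟨hi.1, lt_of_le_of_lt h hi.2⟩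
  · refine Or.inr (h1.trans (sum_le_sum_of_subset_of_nonneg ?_ fun i _ _ => by positivity))
    intro i hi
    rw [mem_filter] at hi ⊢
    exact ⟨hi.1, hi.2.trans h⟩

/-- Both forms of the main theorem, with the same constant. -/
theorem main_both (hM : MainC) (ε : ℝ) (hε : 0 < ε) : ∃ c : ℝ, 0 < c ∧
    (∀ {n d : ℕ} (w : Fin n → ℕ), (∀ i, (w i : ℝ) ≤ c * d) →
      (∑ i ∈ univ.filter (fun i => c * (d : ℝ) ^ (2 / 3 : ℝ) < (w i : ℝ)), (w i : ℝ) ^ 2 ≤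
          (1 - ε) * (d : ℝ) ^ 2 ∨
        ε * (d : ℝ) ^ 2 ≤
          ∑ i ∈ univ.filter (fun i => (w i : ℝ) ≤ c * (d : ℝ) ^ (2 / 3 : ℝ)), (w i : ℝ) ^ 2) →
      GenExp d w) ∧
    ∀ {n d s : ℕ} {μ : ℝ} (w : Fin n → ℕ),
      1 ≤ s → 0 ≤ μ → (∀ i, (w i : ℝ) ≤ c * d) →
      ((univ.filter fun i => (w i : ℝ) ≤ μ).image w).card ≤ s → s * μ ^ 2 ≤ c * (d : ℝ) ^ 2 →
      (∑ i ∈ univ.filter (fun i => c * μ < (w i : ℝ)), (w i : ℝ) ^ 2 ≤ (1 - ε) * (d : ℝ) ^ 2 ∨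
        ε * (d : ℝ) ^ 2 ≤ ∑ i ∈ univ.filter (fun i => (w i : ℝ) ≤ c * μ), (w i : ℝ) ^ 2) →
      GenExp d w := by
  obtain ⟨c1, hc1, H1⟩ := mainC23 hM ε hε
  obtain ⟨c2, hc2, H2⟩ := hM ε hε
  obtain ⟨c, hc⟩ : ∃ c, c = min c1 c2 := ⟨_, rfl⟩
  have h1 : c ≤ c1 := hc ▸ min_le_left _ _
  have h2 : c ≤ c2 := hc ▸ min_le_right _ _
  refine ⟨c, hc ▸ lt_min hc1 hc2, fun {n d} w a1 a2 => ?_, fun {n d s μ} w a1 a2 a3 a4 a5 a6 => ?_⟩
  · have hd : (0 : ℝ) ≤ (d : ℝ) ^ (2 / 3 : ℝ) := by positivity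
    exact @H1 n d w (fun i => (a1 i).trans (mul_le_mul_of_nonneg_right h1 (Nat.cast_nonneg _)))
      (alt_mono (mul_le_mul_of_nonneg_right h1 hd) a2)
  · exact @H2 n d s μ w a1 a2
      (fun i => (a3 i).trans (mul_le_mul_of_nonneg_right h2 (Nat.cast_nonneg _))) a4
      (a5.trans (mul_le_mul_of_nonneg_right h2 (by positivity)))
      (alt_mono (mul_le_mul_of_nonneg_right h2 a2) a6)

/-- The class `(d; w)` is concentrated (for the function `c`): for every `ε > 0`, if all `w i` are at most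
`c ε * d`, then the multiplicities above `c ε * d ^ (2 / 3)` have more than the part `1 - ε` of the
volume `d ^ 2`, and the others less than the part `ε`. -/
def Concentrated (c : ℝ → ℝ) {n : ℕ} (d : ℕ) (w : Fin n → ℕ) : Prop :=
  ∀ ε : ℝ, 0 < ε → (∀ i, (w i : ℝ) ≤ c ε * d) →
    (1 - ε) * (d : ℝ) ^ 2 <
        ∑ i ∈ univ.filter (fun i => c ε * (d : ℝ) ^ (2 / 3 : ℝ) < (w i : ℝ)), (w i : ℝ) ^ 2 ∧
      ∑ i ∈ univ.filter (fun i => (w i : ℝ) ≤ c ε * (d : ℝ) ^ (2 / 3 : ℝ)), (w i : ℝ) ^ 2 <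
        ε * (d : ℝ) ^ 2

/-- Classes which are not concentrated have the expected dimension. -/
theorem exists_conc (hM : MainC) : ∃ c : ℝ → ℝ, (∀ ε, 0 < ε → 0 < c ε) ∧
    ∀ {n d : ℕ} (w : Fin n → ℕ), ¬ Concentrated c d w → GenExp d w := by
  have h := mainC23 hM
  choose c hc hc' using h
  refine ⟨fun ε => if h : 0 < ε then c ε h else 1, fun ε hε => ?_, fun {n d} w hw => ?_⟩
  · simp only [dif_pos hε]
    exact hc ε hε
  · unfold Concentrated at hw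
    push Not at hw
    obtain ⟨ε, hε, h1, h2⟩ := hw
    simp only [dif_pos hε] at h1 h2
    refine @hc' ε hε n d w h1 ?_
    by_contra hcon
    push Not at hcon
    exact absurd (h2 hcon.1) (not_le.2 hcon.2)

end Pool.Agent.H200P
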