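import Pool.Agent.H200P.Fin
import Pool.Agent.H200W.NefFin
import Pool.Agent.Q211.PK.Cor2K
import Pool.Agent.Q211.PK.FitT
import Pool.Agent.Q211.PK.NumK
import Pool.Agent.Q211.PK.TipC
import Pool.Agent.Q211.PK.Zero
import Pool.Agent.Q285.PK.Box
import Pool.Agent.Q285.PK.Cor
import Pool.Agent.Q285.PK.Leaf
import Pool.Agent.Q285.PK.Tri
import Pool.Agent.Q285.PK.Win
import Pool.Agent.Q195.PK.ExpK
import Pool.Agent.Q195.PK.Greedy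
import Pool.Agent.Q195.PK.MainC
import Pool.Agent.Q195.PK.NefK
import Pool.Agent.Q195.PK.Quad
import Pool.Agent.Q195.PK.Scale
import Pool.Agent.Q162.PK.Slab
import Pool.Agent.Q162.PK.Tri

/-! # Project PK: the assembly.

The lemmas of `Stm`, `Stm2`, `Stm3` were proved by helper162, helper195, helper211 and helper285. -/

set_option autoImplicit false

namespace Pool.Agent.H200P

open Finset Pool.Agent.H200W Pool.Agent.W609.CR Pool.Agent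

/-! ## Triangles with packed points -/

theorem p_boxS : BoxS := fun h1 h2 h3 h4 h5 h6 h7 h8 h9 =>
  Q285.PK.boxS Q211.PK.tipC h1 h2 h3 h4 h5 h6 h7 h8 h9
theorem p_boxE : BoxE := fun h1 h2 h3 h4 h5 h6 h7 h8 h9 =>
  Q285.PK.boxE Q211.PK.tipC h1 h2 h3 h4 h5 h6 h7 h8 h9
theorem p_slabS : SlabS := fun h1 h2 h3 h4 B w D h5 h6 h7 =>
  Q162.PK.slabS p_boxS Q195.PK.quadS h1 h2 h3 h4 B w D h5 h6 h7
theorem p_slabE : SlabE := fun h1 h2 h3 h4 B w D h5 h6 h7 =>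
  Q162.PK.slabE p_boxE Q195.PK.quadE h1 h2 h3 h4 B w D h5 h6 h7
theorem p_triS : TriS := fun h1 h2 h3 h4 L D h5 =>
  Q162.PK.triS p_slabS Q211.PK.fitT h1 h2 h3 h4 L D h5
theorem p_triE : TriE := fun h1 h2 h3 h4 L D h5 =>
  Q285.PK.triE p_slabE Q211.PK.fitT h1 h2 h3 h4 L D h5
theorem p_pack : Pack := fun K h1 h2 h3 h4 => Q195.PK.pack Q195.PK.greedy K h1 h2 h3 h4

/-! ## Coranks -/

theorem p_winK : WinK := fun K h1 h2 h3 h4 h5 e h6 =>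
  Q285.PK.winK p_triS p_triE p_pack Q211.PK.fitT Q211.PK.zero K h1 h2 h3 h4 h5 e h6
theorem p_leafK : LeafK := fun K V N a R h1 h2 h3 h4 h5 h6 h7 h8 h9 h10 h11 =>
  Q285.PK.leafK p_winK K V N a R h1 h2 h3 h4 h5 h6 h7 h8 h9 h10 h11
theorem p_numK : NumK := Q211.PK.numK p_leafK
theorem p_corankK : CorankK := Q285.PK.corankK p_numK

/-- Packed classes have the expected dimension. -/
theorem packAt_all {n d : ℕ} {w : Fin n → ℕ} (h : PackAt d w) : GenExp d w :=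
  Q195.PK.expK p_corankK (fun K w h1 h2 h3 h4 h5 h6 h7 h8 h9 h10 =>
    Q211.PK.corankK2 p_corankK K w h1 h2 h3 h4 h5 h6 h7 h8 h9 h10) h

/-- **The main theorem.** -/
theorem mainC_all : MainC := Q195.PK.mainC Q195.PK.scale (fun h => packAt_all h)

theorem packed_all {n d : ℕ} {w : Fin n → ℕ} (h : Packed d w) : GenExp d w :=
  packed_exp packAt_all h

theorem conc_all : ∃ c : ℝ → ℝ, (∀ ε, 0 < ε → 0 < c ε) ∧
    ∀ {n d : ℕ} (w : Fin n → ℕ), ¬ Concentrated c d w → GenExp d w := exists_conc mainC_all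

theorem nefK_all : ∀ ε : ℝ, 0 < ε → ∃ γ : ℝ, 0 < γ ∧ ∀ {n s : ℕ}
  {P : Fin n → Fin 2 → ℂ}, AlgebraicIndependent ℚ (fun ij : Fin n × Fin 2 => P ij.1 ij.2) →
  ∀ (c M : ℝ) (x : Fin n → ℝ), 1 ≤ s → 0 < c → 0 ≤ M → (∀ i, 0 ≤ x i) → (∀ i, x i ≤ γ * c) →
  ((univ.filter fun i => x i ≤ M).image x).card ≤ s → s * M ^ 2 ≤ γ * c ^ 2 →
  ε * c ^ 2 ≤ ∑ i ∈ univ.filter (fun i => x i ≤ γ * M), x i ^ 2 → ∑ i, x i ^ 2 ≤ c ^ 2 →
  ∀ (G : MvPolynomial (Fin 3) ℂ) (e : ℕ) (u : Fin n → ℕ), G ≠ 0 → G.IsHomogeneous e →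
    (∀ i, Van (Pool.Agent.W609.CR.aff (P i)) (u i) G) → ∑ i, x i * (u i : ℝ) ≤ c * e :=
  Q195.PK.nefK mainC_all nefExp

/-- The class `c H - ∑ x_i E_i` has small coefficients with a positive part of the volume. -/
def SmallPart (γ ε : ℝ) {n : ℕ} (c : ℝ) (x : Fin n → ℝ) : Prop :=
  0 < c ∧ (∀ i, 0 ≤ x i ∧ x i ≤ γ * c) ∧ ∃ (s : ℕ) (M : ℝ), 1 ≤ s ∧ 0 ≤ M ∧
    ((univ.filter fun i => x i ≤ M).image x).card ≤ s ∧ s * M ^ 2 ≤ γ * c ^ 2 ∧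
    ε * c ^ 2 ≤ ∑ i ∈ univ.filter (fun i => x i ≤ γ * M), x i ^ 2

theorem nef_fun : ∃ γ : ℝ → ℝ, (∀ ε, 0 < ε → 0 < γ ε) ∧ ∀ (ε : ℝ), 0 < ε → ∀ {n : ℕ}
    {P : Fin n → Fin 2 → ℂ}, AlgebraicIndependent ℚ (fun ij : Fin n × Fin 2 => P ij.1 ij.2) →
    ∀ (c : ℝ) (x : Fin n → ℝ), SmallPart (γ ε) ε c x → ∑ i, x i ^ 2 ≤ c ^ 2 →
    ∀ (G : MvPolynomial (Fin 3) ℂ) (e : ℕ) (u : Fin n → ℕ), G ≠ 0 → G.IsHomogeneous e →
      (∀ i, Van (Pool.Agent.W609.CR.aff (P i)) (u i) G) → ∑ i, x i * (u i : ℝ) ≤ c * e := by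
  have h := nefK_all
  choose γ hγ H using h
  refine ⟨fun ε => if h : 0 < ε then γ ε h else 1, fun ε hε => ?_, fun ε hε {n P} hP c x hx => ?_⟩
  · simp only [dif_pos hε]
    exact hγ ε hε
  · simp only [dif_pos hε] at hx
    obtain ⟨h1, h2, s, M, h3, h4, h5, h6, h7⟩ := hx
    exact H ε hε hP c M x h3 h1 h4 (fun i => (h2 i).1) (fun i => (h2 i).2) h5 h6 h7

end Pool.Agent.H200P
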