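import Pool.Agent.H200P.Def

/-! # Project PK: dividing a set by a family of cuts, with further fixed points. -/

set_option autoImplicit false

namespace Pool.Agent.H200P

open Finset Pool.Agent.TH176.Nag Pool.Agent.TH603.Sur Pool.Agent.TH2.NU Pool.Agent.TH641.UM
open Pool.Agent.Y205.FW Pool.Agent.Y205.MD Pool.Agent.H200W

/-- the upper triangle, independence -/
theorem topS {h u b t : ℝ} (h1 : 1 ≤ h) (h2 : 5 * h ≤ b - t) :
    GoodS h u {p : ℤ × ℤ | t < (p.2 : ℝ) ∧ 0 < p.1 ∧ (p.1 : ℝ) < b - p.2}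
      ((b - t) ^ 2 - (b - t)) := Q187.WR.top.1 p_linS p_tipS p_rtS h1 h2

/-- the upper triangle, emptiness -/
theorem topE {h u b t : ℝ} (h1 : 1 ≤ h) (h2 : 5 * h ≤ b - t) :
    GoodE h u {p : ℤ × ℤ | t ≤ (p.2 : ℝ) ∧ 0 ≤ p.1 ∧ (p.1 : ℝ) ≤ b - p.2} ((b - t) ^ 2) :=
  Q187.WR.top.2 p_linE p_tipE p_rtE h1 h2

theorem surM_zero (S : Set (ℤ × ℤ)) : SurM 0 S := Q53.WR.surM_zero S

theorem GoodSK.mono {K : Multiset ℕ} {h u : ℝ} {S T : Set (ℤ × ℤ)} {α β : ℝ}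
    (hg : GoodSK K h u S α) (hβ : β ≤ α) (hST : ∀ M, SurM M S → SurM M T) :
    GoodSK K h u T β :=
  ⟨hST _ hg.1, fun L h1 h2 => hST _ (hg.2 L h1 (h2.trans hβ))⟩

theorem GoodEK.mono {K : Multiset ℕ} {h u : ℝ} {S T : Set (ℤ × ℤ)} {α β : ℝ}
    (hg : GoodEK K h u S α) (hβ : α ≤ β) (hST : ∀ M, EmpM M S → EmpM M T) :
    GoodEK K h u T β :=
  fun L h1 h2 => hST _ (hg L h1 (hβ.trans h2))

theorem GoodS.toK {h u : ℝ} {S : Set (ℤ × ℤ)} {α : ℝ} (hg : GoodS h u S α) :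
    GoodSK 0 h u S α :=
  ⟨surM_zero S, fun L h1 h2 => by rw [zero_add]; exact hg L h1 h2⟩

theorem GoodE.toK {h u : ℝ} {S : Set (ℤ × ℤ)} {α : ℝ} (hg : GoodE h u S α) :
    GoodEK 0 h u S α :=
  fun L h1 h2 => by rw [zero_add]; exact hg L h1 h2

/-- adding points on a part of the set, independence -/
theorem GoodSK.union {K K' : Multiset ℕ} {h u : ℝ} {S T : Set (ℤ × ℤ)} {α : ℝ}
    (hg : GoodSK K h u S α) (hST : ∀ M, SurM M S → SurM (K' + M) T) :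
    GoodSK (K' + K) h u T α :=
  ⟨hST _ hg.1, fun L h1 h2 => by
    rw [add_assoc]
    exact hST _ (hg.2 L h1 h2)⟩

/-- adding points on a part of the set, emptiness -/
theorem GoodEK.union {K K' : Multiset ℕ} {h u : ℝ} {S T : Set (ℤ × ℤ)} {α : ℝ}
    (hg : GoodEK K h u S α) (hST : ∀ M, EmpM M S → EmpM (K' + M) T) :
    GoodEK (K' + K) h u T α :=
  fun L h1 h2 => by
    rw [add_assoc]
    exact hST _ (hg L h1 h2)

/-- dividing a set, independence -/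
theorem divKS {K1 K2 : Multiset ℕ} {h u t0 t1 α : ℝ} {S : Set (ℤ × ℤ)}
    (S1 S2 : ℝ → Set (ℤ × ℤ)) (α1 α2 : ℝ → ℝ) (ht : t0 ≤ t1)
    (hc : ContinuousOn α1 (Set.Icc t0 t1)) (h0 : 0 ≤ α1 t0) (hu : u ≤ α1 t1 - α1 t0)
    (hu0 : 0 ≤ u) (hα : ∀ t ∈ Set.Icc t0 t1, α ≤ α1 t + α2 t)
    (hS1 : ∀ t ∈ Set.Icc t0 t1, GoodSK K1 h u (S1 t) (α1 t))
    (hS2 : ∀ t ∈ Set.Icc t0 t1, GoodSK K2 h u (S2 t) (α2 t))
    (hcut : ∀ t ∈ Set.Icc t0 t1, ∀ M1 M2 : Multiset ℕ, SurM M1 (S1 t) → SurM M2 (S2 t) →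
      SurM (M1 + M2) S) : GoodSK (K1 + K2) h u S α := by
  have ht1 : t1 ∈ Set.Icc t0 t1 := ⟨ht, le_refl _⟩
  refine ⟨hcut t1 ht1 _ _ (hS1 t1 ht1).1 (hS2 t1 ht1).1, fun L hL hs => ?_⟩
  have e3 : ∀ A B : Multiset ℕ, K1 + K2 + (A + B) = (K1 + A) + (K2 + B) := fun A B => by
    rw [add_assoc, add_assoc, ← add_assoc K2, add_comm K2 A, add_assoc]
  by_cases hle : (L.map Prod.snd).sum ≤ α1 t1
  · have := hcut t1 ht1 _ _ ((hS1 t1 ht1).2 L hL hle) (hS2 t1 ht1).1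
    have e : K1 + K2 + (L.map Prod.fst).sum = K1 + (L.map Prod.fst).sum + K2 := by
      rw [add_assoc, add_assoc, add_comm K2]
    rw [e]
    exact this
  · push Not at hle
    obtain ⟨L1, L2, e, h1, h2⟩ := Q53.WR.split_le Prod.snd (u := u) (A := α1 t1) (by linarith) L
      (fun x hx => (hL x hx).2) hle
    obtain ⟨t, ht', hte⟩ := intermediate_value_Icc ht hc (show (L1.map Prod.snd).sum ∈
      Set.Icc (α1 t0) (α1 t1) from ⟨by linarith, h1⟩)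
    subst e
    rw [List.map_append, List.sum_append] at hs
    rw [List.map_append, List.sum_append, e3]
    refine hcut t ht' _ _ ((hS1 t ht').2 L1 (fun x hx => hL x (List.mem_append_left _ hx)) hte.ge)
      ((hS2 t ht').2 L2 (fun x hx => hL x (List.mem_append_right _ hx)) ?_)
    have := hα t ht'
    linarith

/-- dividing a set, emptiness -/
theorem divKE {K1 K2 : Multiset ℕ} {h u t0 t1 α : ℝ} {S : Set (ℤ × ℤ)}
    (S1 S2 : ℝ → Set (ℤ × ℤ)) (α1 α2 : ℝ → ℝ) (ht : t0 ≤ t1)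
    (hc : ContinuousOn α1 (Set.Icc t0 t1)) (h0 : 0 ≤ α1 t0) (hu : u ≤ α1 t1 - α1 t0)
    (hu0 : 0 ≤ u) (hα : ∀ t ∈ Set.Icc t0 t1, α1 t + α2 t ≤ α)
    (hα2 : ∀ t ∈ Set.Icc t0 t1, 0 ≤ α2 t)
    (hS1 : ∀ t ∈ Set.Icc t0 t1, GoodEK K1 h u (S1 t) (α1 t))
    (hS2 : ∀ t ∈ Set.Icc t0 t1, GoodEK K2 h u (S2 t) (α2 t))
    (hcut : ∀ t ∈ Set.Icc t0 t1, ∀ M1 M2 : Multiset ℕ, EmpM M1 (S1 t) → EmpM M2 (S2 t) →
      EmpM (M1 + M2) S) : GoodEK (K1 + K2) h u S α := by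
  intro L hL hs
  have e3 : ∀ A B : Multiset ℕ, K1 + K2 + (A + B) = (K1 + A) + (K2 + B) := fun A B => by
    rw [add_assoc, add_assoc, ← add_assoc K2, add_comm K2 A, add_assoc]
  have ht0 : t0 ∈ Set.Icc t0 t1 := ⟨le_refl _, ht⟩
  obtain ⟨L1, L2, e, h1, h2⟩ := Q53.WR.split_ge Prod.snd (u := u) (A := α1 t0) h0 hu0 L
    (fun x hx => (hL x hx).2) (by
      have := hα t0 ht0
      have := hα2 t0 ht0
      linarith)
  obtain ⟨t, ht', hte⟩ := intermediate_value_Icc ht hc (show (L1.map Prod.snd).sum ∈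
    Set.Icc (α1 t0) (α1 t1) from ⟨h1, by linarith⟩)
  subst e
  rw [List.map_append, List.sum_append] at hs
  rw [List.map_append, List.sum_append, e3]
  refine hcut t ht' _ _ (hS1 t ht' L1 (fun x hx => hL x (List.mem_append_left _ hx)) hte.le)
    (hS2 t ht' L2 (fun x hx => hL x (List.mem_append_right _ hx)) ?_)
  have := hα t ht'
  linarith

end Pool.Agent.H200P
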