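import Pool.Agent.H200W.All

/-! # Project PK: large multiplicities. Definitions.

A few large multiplicities are packed into a triangle of exponents (every point takes a corner
triangle, cut off by a line), the small ones are distributed over the rest as in project WR
(Pool/Agent/H200W). -/

set_option autoImplicit false

namespace Pool.Agent.H200P

open Finset Pool.Agent.TH176.Nag Pool.Agent.TH603.Sur Pool.Agent.TH2.NU Pool.Agent.TH641.UM
open Pool.Agent.Y205.FW Pool.Agent.Y205.MD Pool.Agent.H200W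

/-- `K` alone, and `K` together with every list of units (each of need at most `u`) of total need at
most `α`, are independent on `S` -/
def GoodSK (K : Multiset ℕ) (h u : ℝ) (S : Set (ℤ × ℤ)) (α : ℝ) : Prop :=
  SurM K S ∧ ∀ L : List (Multiset ℕ × ℝ), (∀ x ∈ L, UnitS h x.1 x.2 ∧ 0 ≤ x.2 ∧ x.2 ≤ u) →
    (L.map Prod.snd).sum ≤ α → SurM (K + (L.map Prod.fst).sum) S

/-- `K` together with every list of units (each of need at most `u`) of total need at least `α` is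
empty on `S` -/
def GoodEK (K : Multiset ℕ) (h u : ℝ) (S : Set (ℤ × ℤ)) (α : ℝ) : Prop :=
  ∀ L : List (Multiset ℕ × ℝ), (∀ x ∈ L, UnitE h x.1 x.2 ∧ 0 ≤ x.2 ∧ x.2 ≤ u) →
    α ≤ (L.map Prod.snd).sum → EmpM (K + (L.map Prod.fst).sum) S

/-- open rectangle -/
def BO (w b : ℝ) : Set (ℤ × ℤ) := {p | 0 < p.1 ∧ 0 < p.2 ∧ (p.1 : ℝ) < w ∧ (p.2 : ℝ) < b}

/-- closed rectangle -/
def BC (w b : ℝ) : Set (ℤ × ℤ) := {p | 0 ≤ p.1 ∧ 0 ≤ p.2 ∧ (p.1 : ℝ) ≤ w ∧ (p.2 : ℝ) ≤ b}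

/-- open quadrangle `0 < x < w`, `0 < y < D - x` -/
def QO (w D : ℝ) : Set (ℤ × ℤ) := {p | 0 < p.1 ∧ 0 < p.2 ∧ (p.1 : ℝ) < w ∧ (p.1 : ℝ) + p.2 < D}

/-- closed quadrangle `0 ≤ x ≤ w`, `0 ≤ y ≤ D - x` -/
def QC (w D : ℝ) : Set (ℤ × ℤ) := {p | 0 ≤ p.1 ∧ 0 ≤ p.2 ∧ (p.1 : ℝ) ≤ w ∧ (p.1 : ℝ) + p.2 ≤ D}

/-- open triangle of side `D` -/
def DO (D : ℝ) : Set (ℤ × ℤ) := {p | 0 < p.1 ∧ 0 < p.2 ∧ (p.1 : ℝ) + p.2 < D}

/-- closed triangle of side `D` -/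
def DC (D : ℝ) : Set (ℤ × ℤ) := {p | 0 ≤ p.1 ∧ 0 ≤ p.2 ∧ (p.1 : ℝ) + p.2 ≤ D}

/-- the multiset of a list of pairs -/
def pm (B : List (ℕ × ℕ)) : Multiset ℕ := (B.map fun p => ({p.1, p.2} : Multiset ℕ)).sum

/-- the area used by a list of pairs, open version -/
noncomputable def sq1 (B : List (ℕ × ℕ)) : ℝ :=
  (B.map fun p => ((p.1 : ℝ) + 1) ^ 2 + ((p.2 : ℝ) + 1) ^ 2).sum

/-- the area used by a list of pairs, closed version -/
noncomputable def sq0 (B : List (ℕ × ℕ)) : ℝ :=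
  (B.map fun p => (p.1 : ℝ) ^ 2 + (p.2 : ℝ) ^ 2).sum

/-- the height of the box for a pair -/
noncomputable def ht (G : ℝ) (p : ℕ × ℕ) : ℝ := max (p.1 : ℝ) (p.2 : ℝ) + 2 + 2 * G

/-- The list of slabs `(W, B)` (of width between `W` and `W + G`, with the pairs `B`) fits into the
triangle of side `D`. -/
def FitT (G : ℝ) : ℝ → List (ℝ × List (ℕ × ℕ)) → Prop
  | D, [] => 2 * G ≤ D
  | D, (W, B) :: L => 15 * G ≤ W ∧
      (∀ p ∈ B, (p.1 : ℝ) + 2 + 13 * G ≤ W ∧ (p.2 : ℝ) + 2 + 13 * G ≤ W) ∧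
      W + G + (B.map (ht G)).sum + 2 * G ≤ D ∧ FitT G (D - (W + G)) L

/-- the multiset of a list of slabs -/
def pmT (L : List (ℝ × List (ℕ × ℕ))) : Multiset ℕ := (L.map fun x => pm x.2).sum

/-- the area of a list of slabs, open version -/
noncomputable def sqT1 (L : List (ℝ × List (ℕ × ℕ))) : ℝ := (L.map fun x => sq1 x.2).sum

/-- the area of a list of slabs, closed version -/
noncomputable def sqT0 (L : List (ℝ × List (ℕ × ℕ))) : ℝ := (L.map fun x => sq0 x.2).sum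

/-- The multiplicities `K` can be packed in degree `d` with the margin `16 G`, and leave the part `η`
of the volume free. -/
def PackC (G η : ℝ) (d : ℕ) (K : Multiset ℕ) : Prop :=
  ∃ m1 : ℕ, (∀ m ∈ K, m ≤ m1) ∧
    (K.map fun m : ℕ => ((m : ℝ) + 16 * G) ^ 2).sum + (7 * m1 + 116 * G) * d ≤ (d : ℝ) ^ 2 ∧
    (K.map fun m : ℕ => (m : ℝ) * (m + 1)).sum ≤ (1 - η) * (d : ℝ) ^ 2

end Pool.Agent.H200P
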