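import Pool.Agent.H200P.Base

/-! # Project PK: statements of the lemmas, with their proofs. Part 1: boxes, slabs, triangles.

Everything of project WR is available: `Pool.Agent.H200W.p_cutS`, `p_cutE` (A5, A6, the cuts by a line),
`p_stackS`, `p_stackE` (stacks of strips `ZO`, `ZC`), `p_rowS`, ...; see Pool/Agent/H200W/All.lean and the
statements in Pool/Agent/H200W/Stm.lean, Stm3.lean. `topS`, `topE`, `divKS`, `divKE`, `GoodSK.union`,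
`GoodSK.mono` (and the E versions) are in Pool/Agent/H200P/Base.lean. `Sur.mono`, `Emp.mono` (in the set),
`SurM` and `EmpM` in the same way; `Sur.shift`/`Sur.comap`, `Emp.comap` for translations (see
Pool/Agent/Q187/WR/Corn.lean, Pool/Agent/Q275/WR/Hex.lean, Win for examples of all of these). -/

set_option autoImplicit false

namespace Pool.Agent.H200P

open Finset Pool.Agent.TH176.Nag Pool.Agent.TH603.Sur Pool.Agent.TH2.NU Pool.Agent.TH641.UM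
open Pool.Agent.Y205.FW Pool.Agent.Y205.MD Pool.Agent.H200W

/-- PK1. One point in a corner triangle of exactly `M (M + 1) / 2` exponents. Proof. All four sets are
translates of `{0 ≤ x, 0 ≤ y, x + y < M}` or of its image under `(x, y) ↦ (-x, -y)` (`Emp.comap`), and
`EmpM {M}` holds there: the row `y` has `M - y` exponents; `Pool.Agent.TH603.Sur.Emp_rows`
(TH603/Sur/Rows.lean), with one point, in order of increasing `y`; for the reflected sets the rows are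
again intervals, of length `M, M - 1, ..., 1` from the top row downwards, so one may use a comap with
`y ↦ B - y` only. Independence: the set is finite with exactly `(M + 1).choose 2` elements, take `T` the
whole set in the definition of `Sur`. (See also `TH603/Sur/Forms.lean`: a form of degree `< M` with an
`M`-fold point is zero.) -/
def S_TipC : Prop := ∀ (M : ℕ) (A B : ℤ),
  SurM {M} {p : ℤ × ℤ | 0 < p.1 ∧ 0 < p.2 ∧ p.1 + p.2 ≤ M + 1} ∧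
  SurM {M} {p : ℤ × ℤ | p.1 ≤ A ∧ p.2 ≤ B ∧ A + B - M < p.1 + p.2} ∧
  EmpM {M} {p : ℤ × ℤ | 0 ≤ p.1 ∧ 0 ≤ p.2 ∧ p.1 + p.2 < M} ∧
  EmpM {M} {p : ℤ × ℤ | p.1 ≤ A ∧ p.2 ≤ B ∧ A + B - M < p.1 + p.2}

/-- PK2. A box with two points in opposite corners, independence. Proof. Put
`d' = ⌈w⌉ + ⌈b⌉ - M' - 1` (an integer). In `BO w b` the set `x + y ≤ M + 1` is the first set of PK1 (it is
contained in the box as `M < w`, `M < b`), the set `x + y ≥ d'` is the second one with `A = ⌈w⌉ - 1`,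
`B = ⌈b⌉ - 1` (its points have `x ≥ d' - B = ⌈w⌉ - M' > 0`, `y ≥ ⌈b⌉ - M' > 0`), and the rest
`M + 1 < x + y < d'` is `ZO (M + 1) w d' 0 b` (with real arguments). It is good by `p_stackS`
(`y0 = 0`, `y1 = b`): `d' ≥ w + b - M' - 1 ≥ w`, so `rl (M + 1) w d' 0 = w - (M + 1) ≥ 13 G`, and
`rl (M + 1) w d' b = min w (d' - b) ≥ min w (w - M' - 1) ≥ 13 G`;
`ga b - ga 0 = 2 w b - (max 0 (b + w - d')) ^ 2 - (M + 1) ^ 2` and `b + w - d' ≤ M' + 1`; the loss of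
`p_stackS` is `6 b`. The cuts are the lines `x + y = M + 1` and `x + y = d' - 1 / 2` (`p_cutS`; note
`d' ≥ M + 3`). Use `GoodSK.union` (twice), from the middle set as `GoodSK 0`. -/
def S_BoxS : Prop := S_TipC → ∀ {h u G w b : ℝ} {M M' : ℕ}, 1 ≤ h → 5 * h ≤ G → 0 ≤ u →
  u ≤ G ^ 2 → G ≤ b → (M : ℝ) + 2 ≤ b → (M' : ℝ) + 2 ≤ b → (M : ℝ) + 2 + 13 * G ≤ w →
  (M' : ℝ) + 2 + 13 * G ≤ w →
  GoodSK {M, M'} h u (BO w b) (2 * w * b - ((M : ℝ) + 1) ^ 2 - ((M' : ℝ) + 1) ^ 2 - 6 * b)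

/-- PK2E. The same for emptiness. Proof. Put `d' = ⌊w⌋ + ⌊b⌋ - M'`. The points of `BC w b` with
`x + y < M` are in the third set of PK1, those with `x + y > d'` in the fourth one (`A = ⌊w⌋`, `B = ⌊b⌋`),
the others in `ZC M w d' 0 b`: `p_stackE`, `d' ≥ w + b - 2 - M' ≥ w`, `rl M w d' 0 = w - M ≥ 13 G`,
`rl M w d' b = min w (d' - b) ≥ w - 2 - M' ≥ 13 G`,
`ga b - ga 0 = 2 w b - (max 0 (b + w - d')) ^ 2 - M ^ 2` and `b + w - d' ≥ M'`. Cuts `x + y = M - 1 / 2` and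
`x + y = d'` (`p_cutE`; `BC w b` is finite). -/
def S_BoxE : Prop := S_TipC → ∀ {h u G w b : ℝ} {M M' : ℕ}, 1 ≤ h → 5 * h ≤ G → 0 ≤ u →
  u ≤ G ^ 2 → G ≤ b → (M : ℝ) + 2 ≤ b → (M' : ℝ) + 2 ≤ b → (M : ℝ) + 2 + 13 * G ≤ w →
  (M' : ℝ) + 2 + 13 * G ≤ w →
  GoodEK {M, M'} h u (BC w b) (2 * w * b - (M : ℝ) ^ 2 - (M' : ℝ) ^ 2)

/-- PK3. The quadrangle without points, independence. Proof: `H200W.divS` (that is
`Pool.Agent.Q53.WR.divS`), `t ∈ [D - 14 G, D - 13 G]`,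
`S1 t = ZO 0 w D 0 t` (`p_stackS`: `rl 0 w D 0 = w ≥ 13 G`, `rl 0 w D t = min w (D - t) ≥ 13 G`,
`t ≥ G`), `S2 t = {p | t < p.2 ∧ 0 < p.1 ∧ p.1 < D - p.2}` (`topS`; it is contained in `QO w D` as
`D - t ≤ 14 G ≤ w`), cut by the line `y = t` (`p_cutS` with `α = 0`).
`α1 t = ga t - ga 0 - 6 t = 2 w t - (t - (D - w)) ^ 2 - 6 t` (`t ≥ D - w`; `D - w ≥ 0`),
`α2 t = (D - t) ^ 2 - (D - t)`, and `2 w t - (t - (D - w)) ^ 2 + (D - t) ^ 2 = 2 w D - w ^ 2`. `α1` grows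
on the interval by at least `G (26 G - 6) ≥ G ^ 2 ≥ u`, and
`α1 (D - 14 G) ≥ 26 G t - 6 t ≥ 0` (`2 w t - (t - (D - w)) ^ 2 ≥ 26 G t`: it is
`w t + t (D - t) + (D - w) (w - (D - t))`, each of the first two summands at least `13 G t`).
The case `D < 15 G` does not occur as `15 G ≤ w ≤ D`. -/
def S_QuadS : Prop := ∀ {h u G w D : ℝ}, 1 ≤ h → 5 * h ≤ G → 0 ≤ u → u ≤ G ^ 2 → 15 * G ≤ w →
  w ≤ D → GoodS h u (QO w D) (2 * w * D - w ^ 2 - 6 * D)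

/-- PK3E. The same for emptiness, without loss: `p_stackE`, `topE`, `Pool.Agent.Q53.WR.divE`,
`α1 t = 2 w t - (t - (D - w)) ^ 2`, `α2 t = (D - t) ^ 2`. -/
def S_QuadE : Prop := ∀ {h u G w D : ℝ}, 1 ≤ h → 5 * h ≤ G → 0 ≤ u → u ≤ G ^ 2 → 15 * G ≤ w →
  w ≤ D → GoodE h u (QC w D) (2 * w * D - w ^ 2)

/-- the conclusion of PK2 -/
def BoxS : Prop := ∀ {h u G w b : ℝ} {M M' : ℕ}, 1 ≤ h → 5 * h ≤ G → 0 ≤ u →
  u ≤ G ^ 2 → G ≤ b → (M : ℝ) + 2 ≤ b → (M' : ℝ) + 2 ≤ b → (M : ℝ) + 2 + 13 * G ≤ w →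
  (M' : ℝ) + 2 + 13 * G ≤ w →
  GoodSK {M, M'} h u (BO w b) (2 * w * b - ((M : ℝ) + 1) ^ 2 - ((M' : ℝ) + 1) ^ 2 - 6 * b)

/-- the conclusion of PK2E -/
def BoxE : Prop := ∀ {h u G w b : ℝ} {M M' : ℕ}, 1 ≤ h → 5 * h ≤ G → 0 ≤ u →
  u ≤ G ^ 2 → G ≤ b → (M : ℝ) + 2 ≤ b → (M' : ℝ) + 2 ≤ b → (M : ℝ) + 2 + 13 * G ≤ w →
  (M' : ℝ) + 2 + 13 * G ≤ w →
  GoodEK {M, M'} h u (BC w b) (2 * w * b - (M : ℝ) ^ 2 - (M' : ℝ) ^ 2)

/-- PK4. A slab, independence. Proof by induction on `B` (generalising `D`). `B = []`: PK3, as `GoodSK 0`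
(`GoodS.toK`). `B = (M, M') :: B'`: put `β = max M M' + 2 + G`, so `ht G (M, M') = β + G`; `divKS` with
`t ∈ [β, β + G]`, `S1 t = BO w t` (PK2), `S2 t = {p | t < p.2} ∩ QO w D`, which contains the translate of
`QO w (D - t)` by `(0, ⌊t⌋)` (`y' = y - ⌊t⌋ > 0` gives `y > t`; `x + y' < D - t` gives
`x + y < D`), and the induction hypothesis for `D - t`. `BO w t ⊆ QO w D` as `w + t ≤ D`.
`α1 t = 2 w t - (M + 1) ^ 2 - (M' + 1) ^ 2 - 6 t`,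
`α2 t = 2 w (D - t) - w ^ 2 - sq1 B' - 6 (D - t)`, with sum exactly
`2 w D - w ^ 2 - sq1 B - 6 D`. `α1 β ≥ 0`: `w ≥ m + 2 + 13 G`, `β = m + 2 + G`, `m = max M M'`, so
`(2 w - 6) β ≥ 2 (m + 1) ^ 2`. `α1 (β + G) - α1 β = G (2 w - 6) ≥ G ^ 2 ≥ u`. The cut is
`y = t`. -/
def S_SlabS : Prop := BoxS → S_QuadS → ∀ {h u G : ℝ}, 1 ≤ h → 5 * h ≤ G → 0 ≤ u → u ≤ G ^ 2 →
  ∀ (B : List (ℕ × ℕ)) (w D : ℝ), 15 * G ≤ w →
    (∀ p ∈ B, (p.1 : ℝ) + 2 + 13 * G ≤ w ∧ (p.2 : ℝ) + 2 + 13 * G ≤ w) →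
    w + (B.map (ht G)).sum + 2 * G ≤ D →
    GoodSK (pm B) h u (QO w D) (2 * w * D - w ^ 2 - sq1 B - 6 * D)

/-- PK4E. A slab, emptiness. Proof: as PK4 with `divKE`; `S1 t = BC w t`,
`S2 t = {p | t < p.2} ∩ QC w D` is contained in the translate of `QC w (D - t)` by `(0, ⌊t⌋ + 1)`
(`y > t` gives `y' = y - ⌊t⌋ - 1 ≥ 0`, and `x + y' ≤ D - ⌊t⌋ - 1 ≤ D - t`).
`α1 t = 2 w t - M ^ 2 - M' ^ 2`, `α2 t = 2 w (D - t) - w ^ 2 - sq0 B' ≥ 0` since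
`D - t ≥ w + ∑ (ht G)` and `2 w ht G (N, N') ≥ N ^ 2 + N' ^ 2`. -/
def S_SlabE : Prop := BoxE → S_QuadE → ∀ {h u G : ℝ}, 1 ≤ h → 5 * h ≤ G → 0 ≤ u → u ≤ G ^ 2 →
  ∀ (B : List (ℕ × ℕ)) (w D : ℝ), 15 * G ≤ w →
    (∀ p ∈ B, (p.1 : ℝ) + 2 + 13 * G ≤ w ∧ (p.2 : ℝ) + 2 + 13 * G ≤ w) →
    w + (B.map (ht G)).sum + 2 * G ≤ D →
    GoodEK (pm B) h u (QC w D) (2 * w * D - w ^ 2 - sq0 B)

/-- the conclusion of PK4 -/
def SlabS : Prop := ∀ {h u G : ℝ}, 1 ≤ h → 5 * h ≤ G → 0 ≤ u → u ≤ G ^ 2 →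
  ∀ (B : List (ℕ × ℕ)) (w D : ℝ), 15 * G ≤ w →
    (∀ p ∈ B, (p.1 : ℝ) + 2 + 13 * G ≤ w ∧ (p.2 : ℝ) + 2 + 13 * G ≤ w) →
    w + (B.map (ht G)).sum + 2 * G ≤ D →
    GoodSK (pm B) h u (QO w D) (2 * w * D - w ^ 2 - sq1 B - 6 * D)

/-- the conclusion of PK4E -/
def SlabE : Prop := ∀ {h u G : ℝ}, 1 ≤ h → 5 * h ≤ G → 0 ≤ u → u ≤ G ^ 2 →
  ∀ (B : List (ℕ × ℕ)) (w D : ℝ), 15 * G ≤ w →
    (∀ p ∈ B, (p.1 : ℝ) + 2 + 13 * G ≤ w ∧ (p.2 : ℝ) + 2 + 13 * G ≤ w) →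
    w + (B.map (ht G)).sum + 2 * G ≤ D →
    GoodEK (pm B) h u (QC w D) (2 * w * D - w ^ 2 - sq0 B)

/-- PK5. Elementary properties of `FitT`: monotone in `D`; the number of slabs; the area. Proof: by
induction on `L`. Area: with `w = W + G`, `D ^ 2 = (2 w D - w ^ 2) + (D - w) ^ 2` and
`2 w D - w ^ 2 ≥ w ^ 2 + 2 w ∑ (ht G) ≥ sq0 B`, since `D ≥ w + ∑ (ht G)` and `w ≥ m`, `ht G ≥ m` for
`m = max M M'`. -/
def S_FitT : Prop := ∀ {G : ℝ}, 0 < G → ∀ (L : List (ℝ × List (ℕ × ℕ))) (D D' : ℝ), FitT G D L →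
  (D ≤ D' → FitT G D' L) ∧ 16 * G * L.length ≤ D ∧ sqT0 L ≤ D ^ 2 ∧ 2 * G ≤ D

/-- PK6. A triangle, independence. Proof by induction on `L` (generalising `D`). `L = []`: `topS` with
`t = 0` (`5 h ≤ G ≤ D`): `D ^ 2 - D`. `L = (W, B) :: L'`: `divKS` with `t ∈ [W, W + G]`,
`S1 t = QO t D` (PK4 with `w = t`), `S2 t = {p | t < p.1} ∩ DO D`, which contains the translate of
`DO (D - t)` by `(⌊t⌋, 0)`; the induction hypothesis for `D - t ≥ D - (W + G)` (PK5). Cut `x = t`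
(`p_cutS` with `β = 0`). `α1 t = 2 t D - t ^ 2 - sq1 B - 6 D`,
`α2 t = (D - t) ^ 2 - sqT1 L' - (6 |L'| + 1) (D - t)`; the sum is at least
`D ^ 2 - sqT1 L - (6 |L| + 1) D`. `α1 W ≥ 0`: `(2 W - 6) D - W ^ 2 ≥ (2 W - 6) (2 G + ∑ (ht G)) + W ^ 2 - 6 W` and
`(2 W - 6) ht G (M, M') ≥ 2 (m + 1) ^ 2`. `α1 (W + G) - α1 W = G (2 D - 2 W - G) ≥ G ^ 2 ≥ u`. -/
def S_TriS : Prop := SlabS → S_FitT → ∀ {h u G : ℝ}, 1 ≤ h → 5 * h ≤ G → 0 ≤ u → u ≤ G ^ 2 →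
  ∀ (L : List (ℝ × List (ℕ × ℕ))) (D : ℝ), FitT G D L →
    GoodSK (pmT L) h u (DO D) (D ^ 2 - sqT1 L - (6 * L.length + 1) * D)

/-- PK6E. A triangle, emptiness. Proof: as PK6 with `divKE`; `S1 t = QC t D`,
`S2 t = {p | t < p.1} ∩ DC D` is contained in the translate of `DC (D - t)` by `(⌊t⌋ + 1, 0)`.
`α1 t = 2 t D - t ^ 2 - sq0 B`, `α2 t = (D - t) ^ 2 - sqT0 L' ≥ 0` (PK5 for `D - t`), with sum
`D ^ 2 - sqT0 L`. -/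
def S_TriE : Prop := SlabE → S_FitT → ∀ {h u G : ℝ}, 1 ≤ h → 5 * h ≤ G → 0 ≤ u → u ≤ G ^ 2 →
  ∀ (L : List (ℝ × List (ℕ × ℕ))) (D : ℝ), FitT G D L →
    GoodEK (pmT L) h u (DC D) (D ^ 2 - sqT0 L)

/-- PK7. Filling slabs greedily. Here `β p = max p.1 p.2 + 16 G`, the list `P` is sorted by
decreasing `β`, all `β ≤ b`. Proof by strong induction on `P.length`. `P = []`: `L = []`
(`D ≥ 2 (2 b0 + 2 G) ≥ 2 G` from the inequality, as `D > 0`). Otherwise let `w = β (head)`, `w ≤ b`, and let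
`j` be maximal with `w + ∑_{i < j} β_i + 2 G ≤ D`; `j ≥ 1` because `D ^ 2 ≥ 2 (2 b0 + 2 G) D`, so
`D ≥ 4 b0 + 4 G ≥ 2 w + 2 G`. The first slab is `(w - G, P.take j)`: `w - G = max + 15 G ≥ 15 G`,
`p.i + 2 + 13 G ≤ w - G`, `ht G p ≤ β p`. If `j` is the length of `P` we are done. Otherwise let
`b' = β` of the entry number `j` (the first one which is left), `D' = D - w`, `P' = P.drop j`. By
maximality `∑_{i < j} β_i > D - w - 2 G - b'`, so `2 ∑_{i < j} β_i ^ 2 ≥ 2 b' (D - w - 2 G - b')` and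
`D' ^ 2 = D ^ 2 - 2 w D + w ^ 2 ≥ 2 ∑_{P'} β ^ 2 + 2 b' (D - w - 2 G - b') + 2 w D0 + 2 κ D - 2 w D + w ^ 2
≥ 2 ∑_{P'} β ^ 2 + 2 b' D0 + 2 κ D'`, `κ = 2 b0 + 2 G`, because
`2 (w - b') (D0 - D) ≥ 0` and `2 κ w + w ^ 2 ≥ 2 b' (w + 2 G + b')` (as `b' ≤ w ≤ b0`).
(Replace `b` by `w` at the beginning.) -/
def S_Greedy : Prop := ∀ {G b0 D0 : ℝ}, 1 ≤ G → ∀ (P : List (ℕ × ℕ)) (b D : ℝ), 0 < D → D ≤ D0 →
  0 ≤ b → b ≤ b0 → (P.Pairwise fun p q => max q.1 q.2 ≤ max p.1 p.2) →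
  (∀ p ∈ P, (max p.1 p.2 : ℕ) + 16 * G ≤ b) →
  2 * (P.map fun p => (((max p.1 p.2 : ℕ) : ℝ) + 16 * G) ^ 2).sum + 2 * b * D0 +
    2 * (2 * b0 + 2 * G) * D ≤ D ^ 2 →
  ∃ L : List (ℝ × List (ℕ × ℕ)), FitT G D L ∧ (L.map Prod.snd).flatten = P

/-- PK8. Packing. Proof. Sort `K` decreasingly (`Multiset.sort`) and form pairs of consecutive elements,
with `0` at the end if the number is odd: a list `P` with `pm P = K` or `pm P = K + {0}`. With `β_i` the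
`β` of the pairs and `m_1 ≥ m_2 ≥ ...` the elements of `K`: `β_i = m_{2 i - 1} + 16 G`, so
`2 β_i ^ 2 ≤ (m_{2 i - 2} + 16 G) ^ 2 + (m_{2 i - 1} + 16 G) ^ 2` for `i ≥ 2` and
`2 ∑ β_i ^ 2 ≤ ∑_K (m + 16 G) ^ 2 + β_1 ^ 2`. If `K = 0` take `L = []` (`116 G ≤ D`). Otherwise PK7 with
`D0 = D`, `b = b0 = β_1 ≤ m1 + 16 G`: `β_1 ≤ D` and `∑_K (m + 16 G) ^ 2 + (7 β_1 + 4 G) D ≤ D ^ 2` (this
follows from the hypothesis, as `7 m1 + 116 G = 7 (m1 + 16 G) + 4 G`), so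
`2 ∑ β_i ^ 2 + (6 β_1 + 4 G) D ≤ D ^ 2`. Finally
`pmT L = pm (L.map Prod.snd).flatten`. -/
def S_Pack : Prop := S_Greedy → ∀ {G D : ℝ} {m1 : ℕ} (K : Multiset ℕ), 1 ≤ G → 0 < D →
  (∀ m ∈ K, m ≤ m1) →
  (K.map fun m : ℕ => ((m : ℝ) + 16 * G) ^ 2).sum + (7 * m1 + 116 * G) * D ≤ D ^ 2 →
  ∃ L : List (ℝ × List (ℕ × ℕ)), FitT G D L ∧ (pmT L = K ∨ pmT L = K + {0})

/-- PK9. Multiplicity `0` is no condition. Proof: `SurM_iff`, `EmpM_iff`, `condM`. -/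
def S_Zero : Prop := ∀ (M : Multiset ℕ) (S : Set (ℤ × ℤ)),
  (SurM (M + {0}) S → SurM M S) ∧ (EmpM (M + {0}) S → EmpM M S)

end Pool.Agent.H200P
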