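import Pool.Agent.H200P.Stm

/-! # Project PK: statements of the lemmas, with their proofs. Part 2: degrees and coranks. -/

set_option autoImplicit false

namespace Pool.Agent.H200P

open Finset Pool.Agent.TH176.Nag Pool.Agent.TH603.Sur Pool.Agent.TH2.NU Pool.Agent.TH641.UM
open Pool.Agent.Y205.FW Pool.Agent.Y205.MD Pool.Agent.H200W

/-- the conclusion of PK6 -/
def TriS : Prop := ∀ {h u G : ℝ}, 1 ≤ h → 5 * h ≤ G → 0 ≤ u → u ≤ G ^ 2 →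
  ∀ (L : List (ℝ × List (ℕ × ℕ))) (D : ℝ), FitT G D L →
    GoodSK (pmT L) h u (DO D) (D ^ 2 - sqT1 L - (6 * L.length + 1) * D)

/-- the conclusion of PK6E -/
def TriE : Prop := ∀ {h u G : ℝ}, 1 ≤ h → 5 * h ≤ G → 0 ≤ u → u ≤ G ^ 2 →
  ∀ (L : List (ℝ × List (ℕ × ℕ))) (D : ℝ), FitT G D L →
    GoodEK (pmT L) h u (DC D) (D ^ 2 - sqT0 L)

/-- the conclusion of PK8 -/
def Pack : Prop := ∀ {G D : ℝ} {m1 : ℕ} (K : Multiset ℕ), 1 ≤ G → 0 < D →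
  (∀ m ∈ K, m ≤ m1) →
  (K.map fun m : ℕ => ((m : ℝ) + 16 * G) ^ 2).sum + (7 * m1 + 116 * G) * D ≤ D ^ 2 →
  ∃ L : List (ℝ × List (ℕ × ℕ)), FitT G D L ∧ (pmT L = K ∨ pmT L = K + {0})

/-- PK10. The two windows in all degrees `e ≥ d` (`HX 0 0 0 e` is the set of monomials of degree `e`).
Proof. PK8 with `D = d` (`d > 0`, otherwise `116 G d ≤ d ^ 2` is no information; if `d = 0` the hypothesis
`1 ≤ d` is contradicted) gives a list `L` of slabs which fit into `d`, hence into `e` and `e + 3` (PK5);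
`r = |L| ≤ d / (16 G)`. `K' = pmT L` is `K` or `K + {0}`. Emptiness: `HX 0 0 0 e` is `DC e`; PK6E: area
`e ^ 2 - ∑_{K'} m ^ 2 = 2 |HX| - 2 condM K - (3 e + 2) + ∑_K m`, where `2 |HX| = (e + 1) (e + 2)` (`p_card`).
Independence: `HX 0 0 0 e`, shifted by `(1, 1)`, is `DO (e + 3)` (`Sur.shift`, as in G5 of WR); PK6: area
`(e + 3) ^ 2 - ∑_{K'} (m + 1) ^ 2 - (6 r + 1) (e + 3)
≥ 2 |HX| - 2 condM K - ∑_K (m + 1) - 1 - (6 r + 1) (e + 3)`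
(`(e + 3) ^ 2 - (e + 1) (e + 2) = 3 e + 7 ≥ 0`). From `(m + 16 G) ^ 2 ≥ 32 G (m + 1)` one has
`∑_K (m + 1) ≤ d ^ 2 / (32 G)`. Both errors are at most
`e ^ 2 / (32 G) + 1 + (6 e / (16 G) + 1) (e + 3) ≤ 13 e ^ 2 / (32 G) + 2 e + 4 ≤ 7 e ^ 2 / (16 G)`, since
`e ≥ 116 G` (`2 e + 4 ≤ 3 e ≤ 3 e ^ 2 / (116 G)`), `G ≥ 5`. If `K' = K + {0}` use PK9
(`K + {0} + X = K + X + {0}`). `u = 1024 h ^ 2 ≤ G ^ 2`. -/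
def S_WinK : Prop := TriS → TriE → Pack → S_FitT → S_Zero → ∀ {h G : ℝ} {d m1 : ℕ} (K : Multiset ℕ),
  1 ≤ h → 32 * h ≤ G → 1 ≤ d → (∀ m ∈ K, m ≤ m1) →
  (K.map fun m : ℕ => ((m : ℝ) + 16 * G) ^ 2).sum + (7 * m1 + 116 * G) * d ≤ (d : ℝ) ^ 2 →
  ∀ e : ℕ, d ≤ e →
    GoodSK K h (1024 * h ^ 2) (↑(HX 0 0 0 e) : Set (ℤ × ℤ))
      (2 * ((HX 0 0 0 e).card : ℝ) - 2 * (TH2.NU.condM K : ℝ) - 7 * (e : ℝ) ^ 2 / (16 * G)) ∧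
    GoodEK K h (1024 * h ^ 2) (↑(HX 0 0 0 e) : Set (ℤ × ℤ))
      (2 * ((HX 0 0 0 e).card : ℝ) - 2 * (TH2.NU.condM K : ℝ) + 7 * (e : ℝ) ^ 2 / (16 * G))

/-- the conclusion of PK10 -/
def WinK : Prop := ∀ {h G : ℝ} {d m1 : ℕ} (K : Multiset ℕ),
  1 ≤ h → 32 * h ≤ G → 1 ≤ d → (∀ m ∈ K, m ≤ m1) →
  (K.map fun m : ℕ => ((m : ℝ) + 16 * G) ^ 2).sum + (7 * m1 + 116 * G) * d ≤ (d : ℝ) ^ 2 →
  ∀ e : ℕ, d ≤ e →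
    GoodSK K h (1024 * h ^ 2) (↑(HX 0 0 0 e) : Set (ℤ × ℤ))
      (2 * ((HX 0 0 0 e).card : ℝ) - 2 * (TH2.NU.condM K : ℝ) - 7 * (e : ℝ) ^ 2 / (16 * G)) ∧
    GoodEK K h (1024 * h ^ 2) (↑(HX 0 0 0 e) : Set (ℤ × ℤ))
      (2 * ((HX 0 0 0 e).card : ℝ) - 2 * (TH2.NU.condM K : ℝ) + 7 * (e : ℝ) ^ 2 / (16 * G))

/-- PK11. The corank of a leaf (compare `S_Leaf` of H200W/Stm4.lean, proved in
Pool/Agent/Q111/WR/LeafC.lean). Proof. Let `A = 2 condM (lf V N a R)`,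
`X e = 2 |HX 0 0 0 e| - 2 condM K`, `Λ e = 7 e ^ 2 / (16 G)`, `Z = (A + E0) / (32 h)`.
`X e = (e + 1) (e + 2) - ∑_K m (m + 1) ≥ e ^ 2 - (1 - η) d ^ 2 ≥ η e ^ 2` for `e ≥ d` and
`Λ e ≤ η e ^ 2 / 2` (`32 h ≤ η G`). `p_units` gives a list of units of total need at most `A + E0` for
independence, at least `A - E0` for emptiness (as in `S_Leaf`); PK10. If `X d + Λ d ≤ A - E0`: empty,
corank `0`. If `A + E0 ≤ X d - Λ d`: independent, second case. Otherwise, for every `e ≥ d` with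
`X e - Λ e < A + E0` one has `η e ^ 2 / 2 < A + E0`, and `e ≥ 116 G`, so
`Λ e + 2 (e + 2) ≤ Λ e + 3 e ≤ 15 e ^ 2 / (32 G) ≤ (15 / 16) (A + E0) / (η G) ≤ Z`. For `e = d`:
`A - E0 < X d + Λ d ≤ X d + Z`, the first part of the third case. Let `e + 1` be the least number `> d`
with `A + E0 ≤ X (e + 1) - Λ (e + 1)` (it exists, as `X - Λ ≥ η e ^ 2 / 2`); then
`K + lf` is independent on `HX 0 0 0 (e + 1) ⊇ HX 0 0 0 d`, and the corank is monotone in the set, so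
`2 crk ≤ X (e + 1) - A = X e + 2 (e + 2) - A < E0 + Λ e + 2 (e + 2) ≤ E0 + Z`. -/
def S_LeafK : Prop := WinK → ∀ {h G η : ℝ} {d m1 : ℕ} (K : Multiset ℕ) (V : Finset ℕ)
  (N a : ℕ → ℕ) (R : List (ℕ × ℕ)), 256 ≤ h → 0 < η → η ≤ 1 → 32 * h ≤ η * G → 1 ≤ d →
  (∀ m ∈ K, m ≤ m1) →
  (K.map fun m : ℕ => ((m : ℝ) + 16 * G) ^ 2).sum + (7 * m1 + 116 * G) * d ≤ (d : ℝ) ^ 2 →
  (K.map fun m : ℕ => (m : ℝ) * (m + 1)).sum ≤ (1 - η) * (d : ℝ) ^ 2 →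
  (∀ v ∈ V, 1 ≤ N v ∧ 16 ≤ a v ∧ 16 * ((a v : ℝ) + 1) ≤ h ∧ 4 * h ≤ N v * (a v : ℝ)) →
  (∀ x ∈ R, 1 ≤ x.1 ∧ 1 ≤ x.2 ∧ 16 * ((x.2 : ℝ) + 1) ≤ h ∧ x.1 * ((x.2 : ℝ) + 1) ≤ 256 * h) →
  257 * h ^ 2 * ((R.length : ℝ) + V.card) ≤ ∑ v ∈ V, (N v : ℝ) * (a v : ℝ) ^ 2 →
  crkM (HX 0 0 0 d) (K + lf V N a R) = 0 ∨
    crkM (HX 0 0 0 d) (K + lf V N a R) + TH2.NU.condM (K + lf V N a R) ≤ (HX 0 0 0 d).card ∨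
    (2 * (TH2.NU.condM (K + lf V N a R) : ℝ) - E0 V N a R -
          (2 * (TH2.NU.condM (lf V N a R) : ℝ) + E0 V N a R) / (32 * h) < 2 * (HX 0 0 0 d).card ∧
      2 * (crkM (HX 0 0 0 d) (K + lf V N a R) : ℝ) ≤
        E0 V N a R + (2 * (TH2.NU.condM (lf V N a R) : ℝ) + E0 V N a R) / (32 * h))

/-- the conclusion of PK11 -/
def LeafK : Prop := ∀ {h G η : ℝ} {d m1 : ℕ} (K : Multiset ℕ) (V : Finset ℕ)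
  (N a : ℕ → ℕ) (R : List (ℕ × ℕ)), 256 ≤ h → 0 < η → η ≤ 1 → 32 * h ≤ η * G → 1 ≤ d →
  (∀ m ∈ K, m ≤ m1) →
  (K.map fun m : ℕ => ((m : ℝ) + 16 * G) ^ 2).sum + (7 * m1 + 116 * G) * d ≤ (d : ℝ) ^ 2 →
  (K.map fun m : ℕ => (m : ℝ) * (m + 1)).sum ≤ (1 - η) * (d : ℝ) ^ 2 →
  (∀ v ∈ V, 1 ≤ N v ∧ 16 ≤ a v ∧ 16 * ((a v : ℝ) + 1) ≤ h ∧ 4 * h ≤ N v * (a v : ℝ)) →
  (∀ x ∈ R, 1 ≤ x.1 ∧ 1 ≤ x.2 ∧ 16 * ((x.2 : ℝ) + 1) ≤ h ∧ x.1 * ((x.2 : ℝ) + 1) ≤ 256 * h) →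
  257 * h ^ 2 * ((R.length : ℝ) + V.card) ≤ ∑ v ∈ V, (N v : ℝ) * (a v : ℝ) ^ 2 →
  crkM (HX 0 0 0 d) (K + lf V N a R) = 0 ∨
    crkM (HX 0 0 0 d) (K + lf V N a R) + TH2.NU.condM (K + lf V N a R) ≤ (HX 0 0 0 d).card ∨
    (2 * (TH2.NU.condM (K + lf V N a R) : ℝ) - E0 V N a R -
          (2 * (TH2.NU.condM (lf V N a R) : ℝ) + E0 V N a R) / (32 * h) < 2 * (HX 0 0 0 d).card ∧
      2 * (crkM (HX 0 0 0 d) (K + lf V N a R) : ℝ) ≤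
        E0 V N a R + (2 * (TH2.NU.condM (lf V N a R) : ℝ) + E0 V N a R) / (32 * h))

/-- PK12. The numbers (compare `S_Num` of H200W/Stm4.lean, proved in Pool/Agent/Q111/WR/Num.lean; the
argument is the same). Proof. `V = ∅`: then `R = []`, `lf = 0`, `E0 = 0`, `condM 0 = 0`, and PK11 gives
corank `0` or the claim. Otherwise let `W = ∑ 256 N v`, `P = ∑ N (a + 1)`, `Q = ∑ k (l + 1)`, `G0 = ∑ g0`,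
`G1 = ∑ g1`. `16 v ≤ a`, `a + 1 ≤ 16 (v + 1)` (`Leaf.lo`, `Leaf.hi`), so the hypotheses of PK11 hold, and
`P ≤ ∑ 16 N (v + 1) ≤ W / 8`; `15 W ≤ 32 (G0 + G1)` (`Leaf.gain`);
`W ≥ (1 / μ) ∑ 256 N v ^ 2 ≥ 257 h (h / μ) (|R| + |V|) ≥ 257 * 256 h (|R| + |V|)`, so
`Q ≤ 256 h |R| ≤ W / 257`; `2 condM (leaf) ≤ (h / 16) (P + Q)`, so
`Z = (2 condM + E0) / (32 h) ≤ (P + Q) / 500` and `E' := E0 + Z ≤ (3 / 2) P + Q + (P + Q) / 500 ≤ W / 5`.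
`2 condM (leaf) + 2 G0 = 2 condM (w) + 2 G1` for `w = lf V (256 N) id R` (`Leaf.cd`). PK11, first case:
`crk = 0`. Second case: `crk ≤ |HX| - condM (K + leaf)` and `condM (K + w) ≤ condM (K + leaf) + G0`. Third
case: `2 crk ≤ E'`. If `2 G0 ≥ E'` done. Otherwise `2 G1 ≥ (15 / 16) W - E'`, and
`2 |HX| - 2 condM (K + w) + 2 G0 = (2 |HX| - 2 condM (K + leaf)) + 2 G1 > -E' + (15 / 16) W - E' ≥ E'`. -/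
def S_NumK : Prop := LeafK → ∀ {h G η : ℝ} {d m1 μ : ℕ} (K : Multiset ℕ) (V : Finset ℕ)
  (N : ℕ → ℕ) (R : List (ℕ × ℕ)), 1 ≤ μ → h = 256 * ((μ : ℝ) + 1) → 0 < η → η ≤ 1 →
  32 * h ≤ η * G → 1 ≤ d → (∀ m ∈ K, m ≤ m1) →
  (K.map fun m : ℕ => ((m : ℝ) + 16 * G) ^ 2).sum + (7 * m1 + 116 * G) * d ≤ (d : ℝ) ^ 2 →
  (K.map fun m : ℕ => (m : ℝ) * (m + 1)).sum ≤ (1 - η) * (d : ℝ) ^ 2 →
  (∀ v ∈ V, 1 ≤ v ∧ v ≤ μ ∧ 1 ≤ N v ∧ 4 * h ≤ N v * (16 * (v : ℝ))) →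
  (∀ x ∈ R, 1 ≤ x.1 ∧ 1 ≤ x.2 ∧ x.2 ≤ μ ∧ x.1 * ((x.2 : ℝ) + 1) ≤ 256 * h) →
  257 * h ^ 2 * ((R.length : ℝ) + V.card) ≤ ∑ v ∈ V, (256 * N v : ℝ) * (v : ℝ) ^ 2 →
  ∀ a g0 g1 : ℕ → ℕ, (∀ v ∈ V, Leaf 4 (N v) v (a v) (g0 v) (g1 v)) →
  crkM (HX 0 0 0 d) (K + lf V N a R) ≤
    ((HX 0 0 0 d).card - TH2.NU.condM (K + lf V (fun v => 256 * N v) (fun v => v) R)) + ∑ v ∈ V, g0 v

/-- the conclusion of PK12 -/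
def NumK : Prop := ∀ {h G η : ℝ} {d m1 μ : ℕ} (K : Multiset ℕ) (V : Finset ℕ)
  (N : ℕ → ℕ) (R : List (ℕ × ℕ)), 1 ≤ μ → h = 256 * ((μ : ℝ) + 1) → 0 < η → η ≤ 1 →
  32 * h ≤ η * G → 1 ≤ d → (∀ m ∈ K, m ≤ m1) →
  (K.map fun m : ℕ => ((m : ℝ) + 16 * G) ^ 2).sum + (7 * m1 + 116 * G) * d ≤ (d : ℝ) ^ 2 →
  (K.map fun m : ℕ => (m : ℝ) * (m + 1)).sum ≤ (1 - η) * (d : ℝ) ^ 2 →
  (∀ v ∈ V, 1 ≤ v ∧ v ≤ μ ∧ 1 ≤ N v ∧ 4 * h ≤ N v * (16 * (v : ℝ))) →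
  (∀ x ∈ R, 1 ≤ x.1 ∧ 1 ≤ x.2 ∧ x.2 ≤ μ ∧ x.1 * ((x.2 : ℝ) + 1) ≤ 256 * h) →
  257 * h ^ 2 * ((R.length : ℝ) + V.card) ≤ ∑ v ∈ V, (256 * N v : ℝ) * (v : ℝ) ^ 2 →
  ∀ a g0 g1 : ℕ → ℕ, (∀ v ∈ V, Leaf 4 (N v) v (a v) (g0 v) (g1 v)) →
  crkM (HX 0 0 0 d) (K + lf V N a R) ≤
    ((HX 0 0 0 d).card - TH2.NU.condM (K + lf V (fun v => 256 * N v) (fun v => v) R)) + ∑ v ∈ V, g0 v

/-- PK13. The corank is as expected (compare `S_Corank` of H200W/Stm4.lean, proved in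
Pool/Agent/Q128/WR/Cor.lean; the argument is the same). Proof. For `v ∈ w.toFinset` let `n v = w.count v`,
`V = {v | 256 h ≤ n v (v + 1)}` with `h = 256 (μ + 1)`, `N v = n v / 256`, and let `R` be the list of the
`(n v % 256, v)`, `v ∈ V`, and the `(n v, v)`, `v ∉ V`, without those with first entry `0`; its length is at
most `r = w.toFinset.card`, `V.card ≤ r`, and `w = lf V (256 N) id R`. The hypotheses of PK12 are checked as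
in `S_Corank` (they do not involve `K`). `Pool.Agent.Y205.FW.classes_acc` with `k = 4` and
`E = (the multiset of R) + K`, and PK12 (`K + lf = ∑ replicate + (R-part + K)`). -/
def S_CorankK : Prop := NumK → ∀ {G η : ℝ} {d m1 μ : ℕ} (K w : Multiset ℕ), 0 < η → η ≤ 1 →
  8192 * ((μ : ℝ) + 1) ≤ η * G → 1 ≤ d → (∀ m ∈ K, m ≤ m1) →
  (K.map fun m : ℕ => ((m : ℝ) + 16 * G) ^ 2).sum + (7 * m1 + 116 * G) * d ≤ (d : ℝ) ^ 2 →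
  (K.map fun m : ℕ => (m : ℝ) * (m + 1)).sum ≤ (1 - η) * (d : ℝ) ^ 2 →
  1 ≤ μ → (∀ v ∈ w, 1 ≤ v ∧ v ≤ μ) →
  2 ^ 28 * w.toFinset.card * μ ^ 2 ≤ (w.map fun v => v ^ 2).sum →
  crkM (HX 0 0 0 d) (K + w) ≤ (HX 0 0 0 d).card - TH2.NU.condM (K + w)

/-- the conclusion of PK13 -/
def CorankK : Prop := ∀ {G η : ℝ} {d m1 μ : ℕ} (K w : Multiset ℕ), 0 < η → η ≤ 1 →
  8192 * ((μ : ℝ) + 1) ≤ η * G → 1 ≤ d → (∀ m ∈ K, m ≤ m1) →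
  (K.map fun m : ℕ => ((m : ℝ) + 16 * G) ^ 2).sum + (7 * m1 + 116 * G) * d ≤ (d : ℝ) ^ 2 →
  (K.map fun m : ℕ => (m : ℝ) * (m + 1)).sum ≤ (1 - η) * (d : ℝ) ^ 2 →
  1 ≤ μ → (∀ v ∈ w, 1 ≤ v ∧ v ≤ μ) →
  2 ^ 28 * w.toFinset.card * μ ^ 2 ≤ (w.map fun v => v ^ 2).sum →
  crkM (HX 0 0 0 d) (K + w) ≤ (HX 0 0 0 d).card - TH2.NU.condM (K + w)

/-- PK14. The same if enough room is left by `K` (compare `S_Corank2`, proved in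
Pool/Agent/Q53/WR/Cor2.lean; the argument is the same). Proof: if
`2 ^ 28 r μ ^ 2 ≤ ∑ w ^ 2`, `r = w.toFinset.card`, this is PK13. Otherwise let
`w' = w + Multiset.replicate n μ` with the least `n` such that
`2 ^ 28 (r + 1) μ ^ 2 ≤ ∑ w' ^ 2`; the number of values of `w'` is at most `r + 1`,
`∑ w' ^ 2 ≤ 2 ^ 28 (r + 1) μ ^ 2 + μ ^ 2 ≤ 2 ^ 29 (r + 1) μ ^ 2`, so
`condM (K + w') ≤ condM K + ∑ w' ^ 2 ≤ |HX|`; by PK13 `crkM (K + w') ≤ |HX| - condM (K + w')`. As in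
Cor2.lean this gives `SurM (K + w')`, hence `SurM (K + w)`, hence the claim. -/
def S_CorankK2 : Prop := CorankK → ∀ {G η : ℝ} {d m1 μ : ℕ} (K w : Multiset ℕ), 0 < η → η ≤ 1 →
  8192 * ((μ : ℝ) + 1) ≤ η * G → 1 ≤ d → (∀ m ∈ K, m ≤ m1) →
  (K.map fun m : ℕ => ((m : ℝ) + 16 * G) ^ 2).sum + (7 * m1 + 116 * G) * d ≤ (d : ℝ) ^ 2 →
  (K.map fun m : ℕ => (m : ℝ) * (m + 1)).sum ≤ (1 - η) * (d : ℝ) ^ 2 →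
  1 ≤ μ → (∀ v ∈ w, 1 ≤ v ∧ v ≤ μ) →
  TH2.NU.condM K + 2 ^ 29 * (w.toFinset.card + 1) * μ ^ 2 ≤ (HX 0 0 0 d).card →
  crkM (HX 0 0 0 d) (K + w) ≤ (HX 0 0 0 d).card - TH2.NU.condM (K + w)

end Pool.Agent.H200P
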