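import Pool.Agent.H200P.Stm2
import Pool.Agent.H200W.Stm5

/-! # Project PK: statements of the lemmas, with their proofs. Part 3: the main theorem. -/

set_option autoImplicit false

namespace Pool.Agent.H200P

open Finset Pool.Agent.TH176.Nag Pool.Agent.TH603.Sur Pool.Agent.TH2.NU Pool.Agent.TH641.UM
open Pool.Agent.Y205.FW Pool.Agent.Y205.MD Pool.Agent.H200W
open Pool.Agent.H932R3 Pool.Agent.W609.CR

/-- The class `(d; w)`: the multiplicities in `A` are arbitrary, of size at most `m1`, and can be packed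
into degree `d` with a margin proportional to `μ + 1`; the others are at most `μ`, take at most `s` values,
and the sum of their squares is large, or much room is left by `A`. -/
def PackAt {n : ℕ} (d : ℕ) (w : Fin n → ℕ) : Prop :=
  ∃ (A : Finset (Fin n)) (η : ℝ) (m1 μ s : ℕ), 0 < η ∧ η ≤ 1 ∧ 1 ≤ μ ∧ 1 ≤ d ∧
    (∀ i ∈ A, w i ≤ m1) ∧ (∀ i ∉ A, w i ≤ μ) ∧ ((univ \ A).image w).card ≤ s ∧
    ∑ i ∈ A, ((w i : ℝ) + 2 ^ 17 * (μ + 1) / η) ^ 2 + (7 * m1 + 2 ^ 20 * (μ + 1) / η) * d ≤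
      (d : ℝ) ^ 2 ∧
    ∑ i ∈ A, (w i : ℝ) * (w i + 1) ≤ (1 - η) * (d : ℝ) ^ 2 ∧
    (2 ^ 28 * s * μ ^ 2 ≤ ∑ i ∈ univ \ A, w i ^ 2 ∨
      ∑ i ∈ A, w i * (w i + 1) + 2 ^ 30 * (s + 1) * μ ^ 2 ≤ (d + 1) * (d + 2))

/-- general points impose the expected number of conditions in degree `d` -/
def GenExp {n : ℕ} (d : ℕ) (w : Fin n → ℕ) : Prop :=
  ∀ {K : Type} [Field K] [CharZero K] {P : Fin n → Fin 2 → K},
    AlgebraicIndependent ℚ (fun ij : Fin n × Fin 2 => P ij.1 ij.2) → ExpDim K w P d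

/-- PK15. From the corank to general points. Proof. Let `K` be the multiset of the `w i`, `i ∈ A`, and `W`
the multiset of the nonzero `w i`, `i ∉ A`; `G = 8192 (μ + 1) / η` (`16 G = 2 ^ 17 (μ + 1) / η`,
`116 G ≤ 2 ^ 20 (μ + 1) / η`). `crkM (HX 0 0 0 d) (K + W) ≤ |HX| - condM (K + W)` by the first hypothesis
(case `2 ^ 28 s μ ^ 2 ≤ ∑`) or the second one (`2 condM K = ∑_A w (w + 1)`, `2 |HX| = (d + 1) (d + 2)` by
`p_card`; `W.toFinset.card ≤ s`). If `condM (K + W) ≤ |HX|` one has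
`SurM (K + W) (HX 0 0 0 d)` (the set `T` of `crk_spec`; see Pool/Agent/Q53/WR/Cor2.lean), hence `Sur w (TZ d)`
for the whole family `w` (the zeros are no conditions: PK9 or directly; `HX 0 0 0 d` is `TZ d`), and
`Pool.Agent.TH603.Sur.indep_open` gives a polynomial `F ≠ 0` over `ℚ` such that `ExpDim` holds if
`F (P) ≠ 0`; this is the case for algebraically independent `P`. Otherwise `EmpM (K + W) (HX 0 0 0 d)`, so
`Emp w (TZ d)`, and `full_open`. (Compare `Pool.Agent.TH603.Sur.expDim_two`, TH603/Sur/Main.lean.) -/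
def S_ExpK : Prop := CorankK →
  (∀ {G η : ℝ} {d m1 μ : ℕ} (K w : Multiset ℕ), 0 < η → η ≤ 1 →
  8192 * ((μ : ℝ) + 1) ≤ η * G → 1 ≤ d → (∀ m ∈ K, m ≤ m1) →
  (K.map fun m : ℕ => ((m : ℝ) + 16 * G) ^ 2).sum + (7 * m1 + 116 * G) * d ≤ (d : ℝ) ^ 2 →
  (K.map fun m : ℕ => (m : ℝ) * (m + 1)).sum ≤ (1 - η) * (d : ℝ) ^ 2 →
  1 ≤ μ → (∀ v ∈ w, 1 ≤ v ∧ v ≤ μ) →
  TH2.NU.condM K + 2 ^ 29 * (w.toFinset.card + 1) * μ ^ 2 ≤ (HX 0 0 0 d).card →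
  crkM (HX 0 0 0 d) (K + w) ≤ (HX 0 0 0 d).card - TH2.NU.condM (K + w)) →
  ∀ {n d : ℕ} {w : Fin n → ℕ}, PackAt d w → GenExp d w

/-- PK16. The choice of the scale. Proof. We may assume that some `w i ≥ 1`, so `d ≥ 1 / c`, and `ε ≤ 1`
(if `ε > 1` then `d = 0`, so all `w i = 0`). Let `η = ε / 2`, `C = 2 ^ 19 / ε`; choose natural numbers
`K0 ≥ 8 C / ε` and `J ≥ 8 (1 + C) ^ 2 / ε`, and `c > 0` with `c ≤ 1`, `7 c ≤ ε / 8`,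
`2 c K0 ^ J ≤ 1`, `8 C √c K0 ^ J ≤ ε / 8`, `2 ^ 32 c ≤ ε`, `2 ^ 32 * K0 ^ (3 J) c ^ 2 ≤ ε / 2`. Given the data, let
`ν0 = max 1 ⌈c μ⌉₊` and `ν j = K0 ^ j ν0`. If `c μ ≤ 1` then `ν J = K0 ^ J`, otherwise
`ν J ≤ 2 c μ K0 ^ J ≤ μ`. Also `μ ≤ √c d` (as `s ≥ 1`) and `K0 ^ J ≤ c K0 ^ J d`, so
`ν j ≤ √c K0 ^ J d` for all `j ≤ J`. The bands `B j = {i | ν j < w i ≤ ν (j + 1)}`, `j < J`, are disjoint and
contained in `{i | c μ < w i}`, so for some `j` one has `∑_{B j} w ^ 2 ≤ d ^ 2 / J`. Let `ν = ν j`,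
`A = {i | ν < w i}`, `m1 = ⌊c d⌋₊`, `s'` the number of values of `w` outside of `A`. `PackAt` with
`A, η, m1, ν, s'`: `2 ^ 17 (ν + 1) / η ≤ C ν` and `2 ^ 20 (ν + 1) / η ≤ 8 C ν`; for
`w i > ν (j + 1) = K0 ν` one has `C ν ≤ (ε / 8) w i`, for `i ∈ B j` one has `C ν ≤ C w i`, hence
`∑_A (w + C ν) ^ 2 ≤ (1 + ε / 8) ^ 2 (1 - ε) d ^ 2 + (1 + C) ^ 2 d ^ 2 / J ≤ (1 - 5 ε / 8) d ^ 2 + (ε / 8) d ^ 2`;
`(7 m1 + 8 C ν) d ≤ (ε / 8 + ε / 8) d ^ 2`. `∑_A w ≤ ∑_A (w + C ν) ^ 2 / (4 C ν) ≤ d ^ 2 / (4 C) ≤ (ε / 2) d ^ 2`,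
so `∑_A w (w + 1) ≤ (1 - ε / 2) d ^ 2`. The last condition in the second form:
`2 ^ 30 (s' + 1) ν ^ 2 ≤ (ε / 2) d ^ 2`: if `ν ≤ μ` then `s' ≤ s` and `(s' + 1) ν ^ 2 ≤ 2 s μ ^ 2 ≤ 2 c d ^ 2`;
otherwise `ν ≤ K0 ^ J` and `(s' + 1) ν ^ 2 ≤ 3 ν ^ 3 ≤ 3 K0 ^ (3 J) c ^ 2 d ^ 2` (the values outside of `A`
are at most `ν`, so `s' ≤ ν + 1`). -/
def S_Scale : Prop := ∀ ε : ℝ, 0 < ε → ∃ c : ℝ, 0 < c ∧ ∀ {n d s : ℕ} {μ : ℝ} (w : Fin n → ℕ),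
  1 ≤ s → 0 ≤ μ → (∀ i, (w i : ℝ) ≤ c * d) →
  ((univ.filter fun i => (w i : ℝ) ≤ μ).image w).card ≤ s → s * μ ^ 2 ≤ c * (d : ℝ) ^ 2 →
  ∑ i ∈ univ.filter (fun i => c * μ < (w i : ℝ)), (w i : ℝ) ^ 2 ≤ (1 - ε) * (d : ℝ) ^ 2 →
  (∀ i, w i = 0) ∨ PackAt d w

/-- the main theorem -/
def MainC : Prop := ∀ ε : ℝ, 0 < ε → ∃ c : ℝ, 0 < c ∧ ∀ {n d s : ℕ} {μ : ℝ} (w : Fin n → ℕ),
  1 ≤ s → 0 ≤ μ → (∀ i, (w i : ℝ) ≤ c * d) →
  ((univ.filter fun i => (w i : ℝ) ≤ μ).image w).card ≤ s → s * μ ^ 2 ≤ c * (d : ℝ) ^ 2 →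
  (∑ i ∈ univ.filter (fun i => c * μ < (w i : ℝ)), (w i : ℝ) ^ 2 ≤ (1 - ε) * (d : ℝ) ^ 2 ∨
    ε * (d : ℝ) ^ 2 ≤ ∑ i ∈ univ.filter (fun i => (w i : ℝ) ≤ c * μ), (w i : ℝ) ^ 2) →
  GenExp d w

/-- PK17. The main theorem. Proof. We may assume `ε ≤ 1` (replace `ε` by `min ε 1`, which weakens both
alternatives of the hypothesis). The case `w = 0`: `ExpDim` says that all forms of degree `d` form a
space of dimension `(d + 2).choose 2` (e.g. `Pool.Agent.TH885.CO.exp_plus` from `Fin 0`, or directly).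
Let `c'` be the constant of PK16 for `ε / 4`, and `c = min (c' / 2) (min (ε / 20) (1 / 2))`. In the first case of the
hypothesis, PK16 applies: `{c' μ < w} ⊆ {c μ < w}`, `1 - ε ≤ 1 - ε / 4`, and PK15. In the second case, if
`∑_{w > c μ} w ^ 2 ≤ (1 - ε / 4) d ^ 2` the same. Otherwise remove points with `w > c μ` one by one
until the sum `S'` of the squares of the remaining ones with `w > c μ` is at most `(1 - ε / 4) d ^ 2`; then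
`S' > (1 - ε / 4 - c ^ 2) d ^ 2`. Let `w'` be `w` with the removed values replaced by `0`. PK16 applies to
`w'`, with `2 s` for `s` (the only new value is `0`), so `GenExp d w'` by PK15 (or `w' = 0`, impossible
if `d > 0`). Twice the number of conditions of `w'` is at least
`∑ w' ^ 2 ≥ (1 - ε / 4 - c ^ 2 + ε) d ^ 2 ≥ (1 + ε / 2) d ^ 2 ≥ (d + 1) (d + 2)`, since `d ≥ 1 / c ≥ 20 / ε`
(`3 d + 2 ≤ 5 d ≤ (ε / 2) d ^ 2 / 2`). So the system of `w'` is `0`, and that of `w` is contained in it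
(`w' ≤ w`); the number of conditions of `w` is at least that of `w'`, so `ExpDim` holds for `w`.
(If `d = 0` all `w i = 0`.) -/
def S_MainC : Prop := S_Scale → (∀ {n d : ℕ} {w : Fin n → ℕ}, PackAt d w → GenExp d w) → MainC

/-- PK18. Nef classes. Proof (compare `S_NefWide` in H200W/Stm5.lean). Let `γ` be the constant of `MainC`
for `ε / 2`. If `c ≤ 0` then `x = 0` and the claim is trivial (`c ≥ 0` because of `x i ≤ γ c` and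
`0 ≤ x i`, or `n = 0`; in the case `n = 0` the sum on the left is `0` and `c ^ 2 ≥ 0` says nothing: so
`0 ≤ c` is a hypothesis). For a natural number `N` put `v i = ⌊N x i⌋₊`, `d = ⌈N c⌉₊`. For all large `N` and
all `k`, `MainC` (second alternative, with `ε / 2`) applies to `(k d; k v)` with the same `s` and
`μ = k N M`: `k v i ≤ k N x i ≤ γ k N c ≤ γ k d`; if `k ≥ 1`, `k v i ≤ k N M` implies `x i ≤ M` for large `N`
(finitely many `i`), and equal `x i` have equal `v i`; `s (k N M) ^ 2 ≤ γ (k N c) ^ 2 ≤ γ (k d) ^ 2`;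
`x i ≤ γ M` implies `k v i ≤ γ k N M`, and `∑_{x ≤ γ M} v i ^ 2 ≥ ∑ (N x i) ^ 2 - 2 N ∑ x i ≥
ε (N c) ^ 2 - 2 N ∑ x i ≥ (ε / 2) (N c + 1) ^ 2 ≥ (ε / 2) d ^ 2` for large `N`. `∑ v i ^ 2 ≤ N ^ 2 ∑ x i ^ 2 ≤
(N c) ^ 2 ≤ d ^ 2`. `S_NefExp` gives `∑ v i u i ≤ d e`; divide by `N → ∞`. -/
def S_NefK : Prop := MainC → S_NefExp → ∀ ε : ℝ, 0 < ε → ∃ γ : ℝ, 0 < γ ∧ ∀ {n s : ℕ}
  {P : Fin n → Fin 2 → ℂ}, AlgebraicIndependent ℚ (fun ij : Fin n × Fin 2 => P ij.1 ij.2) →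
  ∀ (c M : ℝ) (x : Fin n → ℝ), 1 ≤ s → 0 < c → 0 ≤ M → (∀ i, 0 ≤ x i) → (∀ i, x i ≤ γ * c) →
  ((univ.filter fun i => x i ≤ M).image x).card ≤ s → s * M ^ 2 ≤ γ * c ^ 2 →
  ε * c ^ 2 ≤ ∑ i ∈ univ.filter (fun i => x i ≤ γ * M), x i ^ 2 → ∑ i, x i ^ 2 ≤ c ^ 2 →
  ∀ (G : MvPolynomial (Fin 3) ℂ) (e : ℕ) (u : Fin n → ℕ), G ≠ 0 → G.IsHomogeneous e →
    (∀ i, Van (Pool.Agent.W609.CR.aff (P i)) (u i) G) → ∑ i, x i * (u i : ℝ) ≤ c * e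

end Pool.Agent.H200P
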